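import Pool.Agent.Work.MP_54723a_co.PC.Frame
import Pool.Agent.Work.MP_54723a_co.Degree

/-!
# One palette and one map (the statement (PAL) of note 7977) and the bound `|V| ≤ l ^ R`

`Pal l c V R`: there are a set `Q` of at most `R` colours and a map `N` such that, for every
`v ∈ V`, `N v` is a subset of `Q` and the palette of a rainbow path into `v`, and every class
`{v ∈ V | N v = S}` has no arc with a colour in `S` and no monochromatic path with `l` edges.

* `card_le_of_pal` : `Pal l c V R`, rank `≤ R` and the theorem for `l` give `|V| ≤ (l + 1) ^ R`.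
* `Bnd_succ_of_Pal` : `Pal l c V R` for all `V` without `(l + 1)`-flash gives `Bnd (l + 1)`.
* `S08791_of_Pal` : the frozen statement S08791 from `Pal 2`.
* `main_of_PalAll` : `f(l,k) = l^(k-1)` for all `l, k ≥ 1` from `Pal l` for all `l`.
-/

set_option autoImplicit false

namespace FlashRainbow

open Classical

variable {c : ℕ → ℕ → ℕ} {V T : Finset ℕ} {l R : ℕ} {lev : ℕ → ℕ → ℕ}

/-! ## Levels and monochromatic paths -/

theorem MP.le_lev (hL : Lev c V l lev) {γ v j : ℕ} (h : MP c V γ v j) :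
    v ∈ V ∧ j ≤ lev γ v := by
  induction h with
  | single hx => exact ⟨hx, Nat.zero_le _⟩
  | @step x y j h hy hlt hc ih =>
    refine ⟨hy, ?_⟩
    have h1 := hL.up x ih.1 y hy hlt
    rw [hc] at h1
    omega

theorem Lev.noMP (hL : Lev c V l lev) (γ v : ℕ) : ¬ MP c V γ v l := by
  intro h
  have h1 := h.le_lev hL
  have h2 := hL.lt γ v h1.1
  omega

/-- if there is no monochromatic path with `l` edges, then there is a level function -/
theorem exists_Lev (hno : ∀ γ v, ¬ MP c V γ v l) : ∃ lev, Lev c V l lev := by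
  refine ⟨fun γ v => Nat.findGreatest (fun j => MP c V γ v j) l, ?_⟩
  have hspec : ∀ γ, ∀ v ∈ V, MP c V γ v (Nat.findGreatest (fun j => MP c V γ v j) l) :=
    fun γ v hv => Nat.findGreatest_spec (P := fun j => MP c V γ v j) (Nat.zero_le l) (MP.single hv)
  have hlt : ∀ γ, ∀ v ∈ V, Nat.findGreatest (fun j => MP c V γ v j) l < l := by
    intro γ v hv
    refine lt_of_le_of_ne (Nat.findGreatest_le _) ?_
    intro heq
    have h1 := hspec γ v hv
    rw [heq] at h1
    exact hno γ v h1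
  refine ⟨hlt, ?_⟩
  intro u hu v hv huv
  exact Nat.le_findGreatest (hlt (c u v) v hv |> fun h => by
    have h1 := MP.step (hspec (c u v) u hu) hv huv rfl
    have h2 := hlt (c u v) u hu
    omega) (MP.step (hspec (c u v) u hu) hv huv rfl)

/-! ## The cases `l = 1` and `l = 2` -/

theorem Bnd_one : Bnd 1 := by
  intro R c V lev hL _
  have h1 : V.card ≤ 1 := by
    rw [Finset.card_le_one]
    intro a ha b hb
    by_contra hab
    rcases lt_or_gt_of_ne hab with hlt | hlt
    · have h1 := hL.up a ha b hb hlt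
      have h2 := hL.lt (c a b) b hb
      omega
    · have h1 := hL.up b hb a ha hlt
      have h2 := hL.lt (c b a) a ha
      omega
  simpa using h1

theorem Bnd_two : Bnd 2 := by
  intro R c V lev hL hR
  refine two_unanchored R V ?_ hR
  intro a ha b hb d hd hab hbd hc
  have h1 := hL.up a ha b hb hab
  have h2 := hL.up b hb d hd hbd
  rw [← hc] at h2
  have h3 := hL.lt (c a b) d hd
  omega

/-! ## The statement (PAL) -/

/-- one palette `Q` and one map `N` -/
def Pal (l : ℕ) (c : ℕ → ℕ → ℕ) (V : Finset ℕ) (R : ℕ) : Prop :=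
  ∃ (Q : Finset ℕ) (N : ℕ → Finset ℕ), Q.card ≤ R ∧
    (∀ v ∈ V, N v ⊆ Q ∧ RP c V v (N v)) ∧
    (∀ u ∈ V, ∀ v ∈ V, u < v → N u = N v → c u v ∉ N v) ∧
    ∀ S γ v, ¬ MP c (V.filter fun u => N u = S) γ v l

theorem card_le_of_pal (hB : Bnd l) (hR : Rk c V R) (hP : Pal l c V R) :
    V.card ≤ (l + 1) ^ R := by
  obtain ⟨Q, N, hQ, hN, hfree, hmono⟩ := hP
  have hclass : ∀ S ∈ Q.powerset, (V.filter fun u => N u = S).card ≤ l ^ (R - S.card) := by
    intro S _
    obtain ⟨lev, hlev⟩ := exists_Lev (hmono S)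
    refine hB (R - S.card) c _ lev hlev ?_
    intro y D hD
    have hsub : (V.filter fun u => N u = S) ⊆ V := Finset.filter_subset _ _
    have hf : ∀ γ ∈ S, ∀ u ∈ (V.filter fun u => N u = S), ∀ v ∈ (V.filter fun u => N u = S),
        u < v → c u v ≠ γ := by
      intro γ hγ u hu v hv huv hc
      obtain ⟨huV, huS⟩ := Finset.mem_filter.mp hu
      obtain ⟨hvV, hvS⟩ := Finset.mem_filter.mp hv
      refine hfree u huV v hvV huv (huS.trans hvS.symm) ?_
      rw [hc, hvS]
      exact hγ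
    have hreach : ∀ v ∈ (V.filter fun u => N u = S), RP c V v S := by
      intro v hv
      obtain ⟨hvV, hvS⟩ := Finset.mem_filter.mp hv
      rw [← hvS]
      exact (hN v hvV).2
    have h1 := hR _ _ (hD.prepend hsub hreach hf)
    have hdis : Disjoint D S := by
      rw [Finset.disjoint_right]
      intro γ hγ
      exact hD.notMem_of_free (hf γ hγ)
    rw [Finset.card_union_of_disjoint hdis] at h1
    omega
  have hmaps : ∀ v ∈ V, N v ∈ Q.powerset := fun v hv => Finset.mem_powerset.mpr (hN v hv).1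
  rw [Finset.card_eq_sum_card_fiberwise hmaps]
  calc ∑ S ∈ Q.powerset, (V.filter fun u => N u = S).card
      ≤ ∑ S ∈ Q.powerset, l ^ (R - S.card) := Finset.sum_le_sum hclass
    _ = ∑ S ∈ Q.powerset, l ^ (R - Q.card) * (1 ^ S.card * l ^ (Q.card - S.card)) := by
        refine Finset.sum_congr rfl fun S hS => ?_
        have h1 := Finset.card_le_card (Finset.mem_powerset.mp hS)
        rw [one_pow, one_mul, ← pow_add]
        congr 1
        omega
    _ = l ^ (R - Q.card) * (1 + l) ^ Q.card := by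
        rw [← Finset.mul_sum, Finset.sum_pow_mul_eq_add_pow]
    _ ≤ (l + 1) ^ (R - Q.card) * (l + 1) ^ Q.card := by
        rw [Nat.add_comm 1 l]
        exact Nat.mul_le_mul_right _ (Nat.pow_le_pow_left (Nat.le_succ l) _)
    _ = (l + 1) ^ R := by
        rw [← pow_add, Nat.sub_add_cancel hQ]

/-- the inductive step from `l` to `l + 1` -/
theorem Bnd_succ_of_Pal (hB : Bnd l)
    (h : ∀ (c : ℕ → ℕ → ℕ) (V : Finset ℕ) (R : ℕ), (∀ γ v, ¬ MP c V γ v (l + 1)) → Rk c V R →
      Pal l c V R) : Bnd (l + 1) :=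
  fun R c V _ hL hR => card_le_of_pal hB hR (h c V R hL.noMP hR)

/-- the frozen statement S08791 from `Pal 2` -/
theorem S08791_of_Pal
    (h : ∀ (c : ℕ → ℕ → ℕ) (V : Finset ℕ) (R : ℕ), (∀ γ v, ¬ MP c V γ v 3) → Rk c V R →
      Pal 2 c V R) :
    ∀ k : ℕ, 1 ≤ k →
      (∃ c : Fin (3 ^ (k - 1)) → Fin (3 ^ (k - 1)) → ℕ,
          (¬ ∃ x : Fin (3 + 1) → Fin (3 ^ (k - 1)), StrictMono x ∧
              ∃ col : ℕ, ∀ i : Fin 3, c (x i.castSucc) (x i.succ) = col) ∧
          (¬ ∃ y : Fin (k + 1) → Fin (3 ^ (k - 1)), StrictMono y ∧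
              Function.Injective (fun i : Fin k => c (y i.castSucc) (y i.succ)))) ∧
      (∀ c : Fin (3 ^ (k - 1) + 1) → Fin (3 ^ (k - 1) + 1) → ℕ,
          (∃ x : Fin (3 + 1) → Fin (3 ^ (k - 1) + 1), StrictMono x ∧
              ∃ col : ℕ, ∀ i : Fin 3, c (x i.castSucc) (x i.succ) = col) ∨
          (∃ y : Fin (k + 1) → Fin (3 ^ (k - 1) + 1), StrictMono y ∧
              Function.Injective (fun i : Fin k => c (y i.castSucc) (y i.succ)))) :=
  S08791_of_Bnd (Bnd_succ_of_Pal (l := 2) Bnd_two h)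

/-- all `l` -/
theorem Bnd_of_PalAll
    (h : ∀ (l : ℕ) (c : ℕ → ℕ → ℕ) (V : Finset ℕ) (R : ℕ), 1 ≤ l →
      (∀ γ v, ¬ MP c V γ v (l + 1)) → Rk c V R → Pal l c V R) :
    ∀ l, 1 ≤ l → Bnd l := by
  intro l hl
  induction l, hl using Nat.le_induction with
  | base => exact Bnd_one
  | succ l hl ih => exact Bnd_succ_of_Pal ih fun c V R hno hR => h l c V R hl hno hR

/-- the whole problem: `f(l,k) = l^(k-1)` for all `l, k ≥ 1` -/
theorem main_of_PalAll
    (h : ∀ (l : ℕ) (c : ℕ → ℕ → ℕ) (V : Finset ℕ) (R : ℕ), 1 ≤ l →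
      (∀ γ v, ¬ MP c V γ v (l + 1)) → Rk c V R → Pal l c V R) {l : ℕ} (hl : 1 ≤ l) :
    ∀ k : ℕ, 1 ≤ k →
      (∃ c : Fin (l ^ (k - 1)) → Fin (l ^ (k - 1)) → ℕ,
          (¬ ∃ x : Fin (l + 1) → Fin (l ^ (k - 1)), StrictMono x ∧
              ∃ col : ℕ, ∀ i : Fin l, c (x i.castSucc) (x i.succ) = col) ∧
          (¬ ∃ y : Fin (k + 1) → Fin (l ^ (k - 1)), StrictMono y ∧
              Function.Injective (fun i : Fin k => c (y i.castSucc) (y i.succ)))) ∧
      (∀ c : Fin (l ^ (k - 1) + 1) → Fin (l ^ (k - 1) + 1) → ℕ,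
          (∃ x : Fin (l + 1) → Fin (l ^ (k - 1) + 1), StrictMono x ∧
              ∃ col : ℕ, ∀ i : Fin l, c (x i.castSucc) (x i.succ) = col) ∨
          (∃ y : Fin (k + 1) → Fin (l ^ (k - 1) + 1), StrictMono y ∧
              Function.Injective (fun i : Fin k => c (y i.castSucc) (y i.succ)))) :=
  main_of_Bnd hl (Bnd_of_PalAll h l hl)

end FlashRainbow
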